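import Mathlib
import Pool.Agent.H334R2.HeightDef
import Pool.Agent.H334R2.Main

/-!
Quantitative Schanuel bound for almost all real tuples. The proof is in
`Pool.Agent.H334R2.Main` and the files it imports; the height is defined in
`Pool.Agent.H334R2.HeightDef`.
-/

namespace Pool.Agent.Results.MP_92cab9_nt.AlmostAllSchanuel

open MeasureTheory Pool.Agent.H334R2

/-- **Quantitative Schanuel bound for almost all tuples.** For every `n ≥ 1` and for almost all
`x ∈ ℝ^n` there are positive constants `c`, `D₀` such that for every integer `D ≥ D₀`, every real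
`μ ≥ D` and all algebraic numbers `α_i`, `β_i` generating a field `K` with `[K : ℚ] ≤ D` and
`[K : ℚ] h(α_i) ≤ μ`, `[K : ℚ] h(β_i) ≤ μ`, one of the numbers `|x_i - β_i|`, `|e^{x_i} - α_i|`
is at least `exp (-c D^{1/(2n)} μ)`. -/
theorem result : ∀ n : ℕ, 1 ≤ n → ∀ᵐ x : Fin n → ℝ,
    ∃ c D₀ : ℝ, 0 < c ∧ 0 < D₀ ∧ ∀ D : ℕ, D₀ ≤ D → ∀ μ : ℝ, (D : ℝ) ≤ μ →
      ∀ α β : Fin n → ℂ, (∀ i, IsAlgebraic ℚ (α i)) → (∀ i, IsAlgebraic ℚ (β i)) →
        Module.finrank ℚ (IntermediateField.adjoin ℚ (Set.range α ∪ Set.range β)) ≤ D →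
        (∀ i, Module.finrank ℚ (IntermediateField.adjoin ℚ (Set.range α ∪ Set.range β)) *
          absLogHeight (α i) ≤ μ) →
        (∀ i, Module.finrank ℚ (IntermediateField.adjoin ℚ (Set.range α ∪ Set.range β)) *
          absLogHeight (β i) ≤ μ) →
        ∃ i, Real.exp (-(c * (D : ℝ) ^ ((1 : ℝ) / (2 * n)) * μ)) ≤
          max ‖(x i : ℂ) - β i‖ ‖Complex.exp (x i) - α i‖ :=
  almost_all_schanuel

end Pool.Agent.Results.MP_92cab9_nt.AlmostAllSchanuel
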